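import Pool.Agent.Y301.QT.Row

set_option autoImplicit false

/-!
The rank refinement of the triangle.
-/

namespace Pool.Agent.Y301.QT

open Finset Matrix Pool.Agent.H920R2.Km

variable {R : Type*} [CommRing R] (u : Rˣ) (x : R)

/-- The rank refinement of the triangle: two coupled triangles `s` (for `true`) and `c`
(for `false`) with `s_{0,0} = c_{0,0} = 1`, `s_{0,l} = c_{0,l} = q^l s_{l-1,0}`,
`s_{k,l} = q^{-1} s_{k-1,l+1} + (q^{l+1} - q^l) x c_{l,k-1}` and
`c_{k,l} = q^{-1} c_{k-1,l+1} + (q^{l+1} - q^l) s_{l,k-1}`. -/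
def rtri : Bool → ℕ → ℕ → R
  | _, 0, 0 => 1
  | _, 0, l + 1 => ((u ^ ((l : ℤ) + 1) : Rˣ) : R) * rtri true l 0
  | true, k + 1, l =>
      ((u ^ (-1 : ℤ) : Rˣ) : R) * rtri true k (l + 1)
        + (((u ^ ((l : ℤ) + 1) : Rˣ) : R) - ((u ^ (l : ℤ) : Rˣ) : R)) * (x * rtri false l k)
  | false, k + 1, l =>
      ((u ^ (-1 : ℤ) : Rˣ) : R) * rtri false k (l + 1)
        + (((u ^ ((l : ℤ) + 1) : Rˣ) : R) - ((u ^ (l : ℤ) : Rˣ) : R)) * rtri true l k
termination_by _ k l => (k + l) * (k + l + 2) + k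
decreasing_by all_goals nlinarith

/-- weighted extensions -/
def E (s m r : ℕ) : R := extf u s m (fun ρ => x ^ ρ) r

lemma E_zero (m r : ℕ) : E u x 0 m r = x ^ r := rfl

lemma E_succ (s m r : ℕ) : E u x (s + 1) m r =
    ((u ^ (r : ℤ) : Rˣ) : R) * E u x s (m + 1) r
    + (((u ^ ((m : ℤ) - r) : Rˣ) : R) - ((u ^ (r : ℤ) : Rˣ) : R)) * E u x s (m + 1) (r + 1) := rfl

theorem E_shift (s m r : ℕ) :
    E u x s (m + 2) (r + 1) = ((u ^ (s : ℤ) : Rˣ) : R) * x * E u x s m r := by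
  induction s generalizing m r with
  | zero => simp [E_zero, pow_succ, mul_comm]
  | succ s ih =>
      rw [E_succ, E_succ]
      rw [show m + 2 + 1 = (m + 1) + 2 from rfl, ih (m + 1) r, ih (m + 1) (r + 1)]
      have e1 : ((u ^ (((r + 1 : ℕ)) : ℤ) : Rˣ) : R) = (u : R) * ((u ^ (r : ℤ) : Rˣ) : R) := by
        rw [← Units.val_mul, Nat.cast_succ, add_comm, _root_.zpow_add, zpow_one]
      have e2 : ((u ^ (((s + 1 : ℕ)) : ℤ) : Rˣ) : R) = (u : R) * ((u ^ (s : ℤ) : Rˣ) : R) := by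
        rw [← Units.val_mul, Nat.cast_succ, add_comm, _root_.zpow_add, zpow_one]
      have e3 : ((u ^ (((m + 2 : ℕ) : ℤ) - ((r + 1 : ℕ) : ℤ)) : Rˣ) : R)
          = (u : R) * ((u ^ ((m : ℤ) - r) : Rˣ) : R) := by
        rw [← Units.val_mul, show ((m + 2 : ℕ) : ℤ) - ((r + 1 : ℕ) : ℤ) = 1 + ((m : ℤ) - r) by
          push_cast; ring, _root_.zpow_add, zpow_one]
      rw [e1, e2, e3]
      ring

/-- Row `b + 1` zero, weighted. -/
def Sx (a b : ℕ) : R := ∑ ρ ∈ range (a + 1), rk u a ρ * E u x b (a + 1) ρ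

/-- Pairs, weighted. -/
def Cx (d e : ℕ) : R :=
  ∑ ρ ∈ range (d + 1), rk u d ρ * (((u ^ ((d : ℤ) - ρ) : Rˣ) : R) * E u x e d ρ)

theorem Sx_step (a b : ℕ) :
    Sx u x a (b + 1) = Sx u x (a + 1) b +
      ((u : R) - 1) * ((u ^ (b : ℤ) : Rˣ) : R) * (x * Cx u x a b) := by
  rw [Sx, Sx, Cx, sum_succ, mul_sum, mul_sum, ← sum_add_distrib]
  refine sum_congr rfl fun ρ _ => ?_
  rw [show a + 1 + 1 = a + 2 from rfl, E_shift, E_succ, show a + 1 + 1 = a + 2 from rfl, E_shift]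
  have e3 : ((u ^ (((a + 1 : ℕ) : ℤ) - (ρ : ℤ)) : Rˣ) : R)
      = (u : R) * ((u ^ ((a : ℤ) - ρ) : Rˣ) : R) := by
    rw [← Units.val_mul, show ((a + 1 : ℕ) : ℤ) - (ρ : ℤ) = 1 + ((a : ℤ) - ρ) by
      push_cast; ring, _root_.zpow_add, zpow_one]
  rw [e3]
  ring

theorem Cx_step (d e : ℕ) :
    Cx u x (d + 1) e = Cx u x d (e + 1) +
      ((u : R) - 1) * ((u ^ (d : ℤ) : Rˣ) : R) * Sx u x d e := by
  rw [Sx, Cx, Cx, sum_succ, mul_sum, ← sum_add_distrib]
  refine sum_congr rfl fun ρ _ => ?_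
  rw [E_succ]
  have e3 : ((u ^ (((d + 1 : ℕ) : ℤ) - (ρ : ℤ)) : Rˣ) : R)
      = (u : R) * ((u ^ ((d : ℤ) - ρ) : Rˣ) : R) := by
    rw [← Units.val_mul, show ((d + 1 : ℕ) : ℤ) - (ρ : ℤ) = 1 + ((d : ℤ) - ρ) by
      push_cast; ring, _root_.zpow_add, zpow_one]
  have e4 : ((u ^ (((d + 1 : ℕ) : ℤ) - ((ρ + 1 : ℕ) : ℤ)) : Rˣ) : R)
      = ((u ^ ((d : ℤ) - ρ) : Rˣ) : R) := by
    rw [show ((d + 1 : ℕ) : ℤ) - ((ρ + 1 : ℕ) : ℤ) = (d : ℤ) - ρ by push_cast; ring]
  have e5 : ((u ^ (d : ℤ) : Rˣ) : R) = ((u ^ ((d : ℤ) - ρ) : Rˣ) : R) * ((u ^ (ρ : ℤ) : Rˣ) : R) := by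
    rw [← Units.val_mul, ← _root_.zpow_add, sub_add_cancel]
  rw [e3, e4, e5]
  ring

theorem E_ext_zero (s : ℕ) (n : ℕ) :
    ∑ ρ ∈ range (n + 1), rk u n ρ * E u x s n ρ
      = ∑ ρ ∈ range (n + s + 1), rk u (n + s) ρ * x ^ ρ := by
  induction s generalizing n with
  | zero => simp [E_zero]
  | succ s ih =>
      rw [show n + (s + 1) + 1 = (n + 1) + s + 1 by ring, show n + (s + 1) = (n + 1) + s by ring,
        ← ih (n + 1), sum_succ]
      refine sum_congr rfl fun ρ _ => ?_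
      rw [E_succ]

lemma Sx_zero_left (n : ℕ) : Sx u x 0 n = ∑ ρ ∈ range (n + 2), rk u (n + 1) ρ * x ^ ρ := by
  have h2 := E_ext_zero u x (n + 1) 0
  simp only [zero_add] at h2
  rw [← h2]
  simp [Sx, E_succ, rk]

lemma Sx_zero_right (n : ℕ) : Sx u x n 0 = ∑ ρ ∈ range (n + 1), rk u n ρ * x ^ ρ := by
  simp [Sx, E_zero]

lemma Cx_zero_left (n : ℕ) : Cx u x 0 n = ∑ ρ ∈ range (n + 1), rk u n ρ * x ^ ρ := by
  have h2 := E_ext_zero u x n 0
  simp only [zero_add] at h2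
  rw [← h2]
  simp [Cx, rk]

theorem rtri_eq (n : ℕ) : ∀ k l : ℕ, k + l = n →
    rtri u x true k l = ((u ^ (l : ℤ) : Rˣ) : R) * Sx u x l k ∧
    rtri u x false k l = ((u ^ (l : ℤ) : Rˣ) : R) * Cx u x k l := by
  induction n using Nat.strong_induction_on with
  | _ n ihn =>
    intro k l hkl
    induction k generalizing l with
    | zero =>
        cases l with
        | zero =>
          rw [rtri, rtri, Sx_zero_right, Cx_zero_left]
          simp [rk]
        | succ l =>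
            rw [rtri, rtri, (ihn l (by omega) l 0 (by omega)).1, Nat.cast_succ, Sx_zero_right,
              Cx_zero_left, Sx_zero_left]
            simp
    | succ k ihk =>
        have e1 : ((u ^ ((l + 1 : ℕ) : ℤ) : Rˣ) : R) = (u : R) * ((u ^ (l : ℤ) : Rˣ) : R) := by
          rw [← Units.val_mul, Nat.cast_succ, add_comm, _root_.zpow_add, zpow_one]
        have e2 : ((u ^ ((l : ℤ) + 1) : Rˣ) : R) = (u : R) * ((u ^ (l : ℤ) : Rˣ) : R) := by
          rw [← Units.val_mul, add_comm, _root_.zpow_add, zpow_one]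
        have e3 : ((u ^ (-1 : ℤ) : Rˣ) : R) * (u : R) = 1 := by
          rw [← Units.val_mul]; simp
        constructor
        · rw [rtri, (ihk (l + 1) (by omega)).1, (ihn (l + k) (by omega) l k rfl).2, Sx_step,
            e1, e2]
          linear_combination (((u ^ (l : ℤ) : Rˣ) : R) * Sx u x (l + 1) k) * e3
        · rw [rtri, (ihk (l + 1) (by omega)).2, (ihn (l + k) (by omega) l k rfl).1, Cx_step,
            e1, e2]
          linear_combination (((u ^ (l : ℤ) : Rˣ) : R) * Cx u x k (l + 1)) * e3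

theorem rtri_main (n : ℕ) :
    ∑ r ∈ range (n + 2), rk u (n + 1) r * x ^ r = rtri u x true n 0 := by
  rw [(rtri_eq u x n n 0 rfl).1, Sx_zero_left]
  simp

theorem rtri_one (n : ℕ) : ∀ k l : ℕ, k + l = n → ∀ b, rtri u 1 b k l = tri u k l := by
  induction n using Nat.strong_induction_on with
  | _ n ihn =>
    intro k l hkl
    induction k generalizing l with
    | zero =>
        intro b
        cases l with
        | zero => cases b <;> rw [rtri, tri]
        | succ l => cases b <;> rw [rtri, tri, ihn l (by omega) l 0 (by omega)]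
    | succ k ihk =>
        intro b
        cases b
        · rw [rtri, tri, ihk (l + 1) (by omega), ihn (l + k) (by omega) l k rfl]
        · rw [rtri, tri, ihk (l + 1) (by omega), ihn (l + k) (by omega) l k rfl, one_mul]

variable {F : Type*} [Field F] [Fintype F]

lemma dm_rank {n : ℕ} (Y : Matrix (Fin n) (Fin n) F) : dm Y = Y.rank := by
  rw [← Matrix.rank_transpose Y]
  have e : Y.vecMulLinear = Yᵀ.mulVecLin :=
    LinearMap.ext fun v => (Matrix.mulVec_transpose Y v).symm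
  unfold dm W Matrix.rank
  rw [e]

open Classical in
theorem count_rows (hu : (u : R) = (Fintype.card F : R)) (k l : ℕ) :
    rtri u x true k l = (u : R) ^ l *
      ∑ X ∈ univ.filter (fun X : Matrix (Fin (l + 1 + k)) (Fin (l + 1 + k)) F =>
        Good X ∧ Rz k X), x ^ X.rank := by
  rw [(rtri_eq u x _ k l rfl).1, Sx]
  have h := sum_rz (F := F) u hu l k (fun ρ => x ^ ρ)
  simp only [dm_rank] at h
  rw [h, zpow_natCast, Units.val_pow_eq_pow_val]
  rfl

open Classical in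
theorem count_pairs (hu : (u : R) = (Fintype.card F : R)) (k l : ℕ) :
    rtri u x false k l = (u : R) ^ l *
      ∑ p ∈ univ.filter (fun p : Matrix (Fin (k + l)) (Fin (k + l)) F × (Fin k → F) =>
        Good p.1 ∧ p.2 ᵥ* lr l p.1 = 0), x ^ p.1.rank := by
  rw [(rtri_eq u x _ k l rfl).2, Cx, zpow_natCast, Units.val_pow_eq_pow_val]
  congr 1
  have h := sum_lr (F := F) u hu k l (fun ρ => x ^ ρ)
    (fun Y => ((univ.filter (fun v : Fin k → F => v ᵥ* Y = 0)).card : R))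
  have h2 := sum_good (F := F) u hu k (fun ρ => ((u ^ ((k : ℤ) - ρ) : Rˣ) : R) * E u x l k ρ)
  refine h2.symm.trans ?_
  have e1 : ∑ X ∈ univ.filter (fun X : Matrix (Fin k) (Fin k) F => Good X),
      ((u ^ ((k : ℤ) - dm X) : Rˣ) : R) * E u x l k (dm X) =
      ∑ Y ∈ univ.filter (fun Y : Matrix (Fin k) (Fin k) F => Good Y),
        ((univ.filter (fun v : Fin k → F => v ᵥ* Y = 0)).card : R) *
          extf u l k (fun ρ => x ^ ρ) (dm Y) := by
    refine sum_congr rfl fun Y _ => ?_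
    obtain ⟨hle, hk⟩ := card_ker Y
    rw [hk, ← Nat.cast_sub hle, zpow_natCast, Units.val_pow_eq_pow_val, hu, Nat.cast_pow]
    rfl
  rw [e1, ← h, sum_filter, sum_filter, Fintype.sum_prod_type]
  refine sum_congr rfl fun X _ => ?_
  by_cases hX : Good X
  · simp only [hX, if_true, true_and]
    rw [← sum_filter, sum_const, nsmul_eq_mul, dm_rank]
  · simp [hX]

end Pool.Agent.Y301.QT
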