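import Pool.Agent.H920R2.Km2

set_option autoImplicit false

/-!
Strictly upper triangular square zero matrices with a prescribed zero row.
-/

namespace Pool.Agent.Y301.QT

open Finset Matrix Pool.Agent.H920R2.Km

variable {F : Type*} [Field F]

/-- the row with the index `k` of `X` is zero -/
def Rz {n : ℕ} (k : ℕ) (X : Matrix (Fin n) (Fin n) F) : Prop :=
  ∀ i j : Fin n, (i : ℕ) = k → X i j = 0

lemma rz_zero {n : ℕ} (v : Fin n → F) (Y : Matrix (Fin n) (Fin n) F) :
    Rz 0 (mk v Y) ↔ v = 0 := by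
  constructor
  · intro h
    ext j
    have := h 0 j.succ (by simp)
    rw [mk_zs] at this
    rw [this]; rfl
  · rintro rfl i j hi
    have : i = 0 := Fin.ext (by simpa using hi)
    subst this
    refine Fin.cases ?_ (fun j => ?_) j <;> simp

lemma rz_succ {n : ℕ} (k : ℕ) (v : Fin n → F) (Y : Matrix (Fin n) (Fin n) F) :
    Rz (k + 1) (mk v Y) ↔ Rz k Y := by
  constructor
  · intro h i j hi
    have := h i.succ j.succ (by simp [hi])
    simpa using this
  · intro h i
    refine Fin.cases ?_ (fun i => ?_) i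
    · intro j hi
      simp at hi
    · intro j hi
      refine Fin.cases ?_ (fun j => ?_) j
      · simp
      · have := h i j (by simpa using hi)
        simpa using this

variable [Fintype F] [DecidableEq F] {R : Type*} [CommRing R] (u : Rˣ)

/-- one step of the recursion -/
def step (n : ℕ) (f : ℕ → R) (ρ : ℕ) : R :=
  ((u ^ (ρ : ℤ) : Rˣ) : R) * f ρ
    + (((u ^ ((n : ℤ) - ρ) : Rˣ) : R) - ((u ^ (ρ : ℤ) : Rˣ) : R)) * f (ρ + 1)

open Classical in
/-- the sum over the possible top rows -/
lemma fiber (hu : (u : R) = (Fintype.card F : R)) {n : ℕ} (f : ℕ → R)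
    (Y : Matrix (Fin n) (Fin n) F) (hY : Good Y) :
    ∑ v ∈ univ.filter (fun v : Fin n → F => v ᵥ* Y = 0), f (dm (mk v Y)) = step u n f (dm Y) := by
  unfold step
  obtain ⟨hle, hk⟩ := card_ker Y
  have hpow : ∀ k : ℕ, ((u ^ (k : ℤ) : Rˣ) : R) = ((Fintype.card F ^ k : ℕ) : R) := by
    intro k
    rw [zpow_natCast, Units.val_pow_eq_pow_val, hu, Nat.cast_pow]
  have hpow2 : ((u ^ ((n : ℤ) - (dm Y : ℤ)) : Rˣ) : R)
      = ((Fintype.card F ^ (n - dm Y) : ℕ) : R) := by
    rw [← hpow, Nat.cast_sub hle]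
  rw [hpow, hpow2, ← card_W Y, ← hk]
  rw [← sum_filter_add_sum_filter_not (univ.filter (fun v : Fin n → F => v ᵥ* Y = 0))
    (fun v => v ∈ W Y)]
  have a1 : (univ.filter (fun v : Fin n → F => v ᵥ* Y = 0)).filter (fun v => v ∈ W Y)
      = univ.filter (· ∈ W Y) := by
    ext v
    simp only [mem_filter, mem_univ, true_and]
    exact ⟨fun h => h.2, fun h => ⟨W_le_ker Y hY.2 v h, h⟩⟩
  have a2 : ((((univ.filter (fun v : Fin n → F => v ᵥ* Y = 0)).filter
      (fun v => v ∉ W Y)).card : ℕ) : R)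
      = ((univ.filter (fun v : Fin n → F => v ᵥ* Y = 0)).card : R)
        - ((univ.filter (· ∈ W Y) : Finset (Fin n → F)).card : R) := by
    have h := card_filter_add_card_filter_not (s := univ.filter (fun v : Fin n → F => v ᵥ* Y = 0))
      (fun v => v ∈ W Y)
    rw [a1] at h
    rw [← h]; push_cast; ring
  have s1 : ∑ v ∈ (univ.filter (fun v : Fin n → F => v ᵥ* Y = 0)).filter (fun v => v ∈ W Y),
      f (dm (mk v Y)) = ((univ.filter (· ∈ W Y) : Finset (Fin n → F)).card : R) * f (dm Y) := by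
    rw [a1, ← nsmul_eq_mul, ← sum_const]
    refine sum_congr rfl fun v hv => ?_
    rw [(dm_mk v Y).1 (mem_filter.1 hv).2]
  have s2 : ∑ v ∈ (univ.filter (fun v : Fin n → F => v ᵥ* Y = 0)).filter (fun v => v ∉ W Y),
      f (dm (mk v Y)) = ((((univ.filter (fun v : Fin n → F => v ᵥ* Y = 0)).filter
      (fun v => v ∉ W Y)).card : ℕ) : R) * f (dm Y + 1) := by
    rw [← nsmul_eq_mul, ← sum_const]
    refine sum_congr rfl fun v hv => ?_
    rw [(dm_mk v Y).2 (mem_filter.1 hv).2]
  rw [← a2]
  exact congrArg₂ (· + ·) s1 s2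

open Classical in
/-- decomposition of the good matrices with a property by their lower right corners -/
lemma decomp {n : ℕ} (φ : Matrix (Fin (n + 1)) (Fin (n + 1)) F → R)
    (Q : Matrix (Fin (n + 1)) (Fin (n + 1)) F → Prop) :
    ∑ X ∈ univ.filter (fun X : Matrix (Fin (n + 1)) (Fin (n + 1)) F => Good X ∧ Q X), φ X =
      ∑ Y ∈ univ.filter (fun Y : Matrix (Fin n) (Fin n) F => Good Y),
        ∑ v ∈ univ.filter (fun v : Fin n → F => v ᵥ* Y = 0 ∧ Q (mk v Y)), φ (mk v Y) := by
  rw [← sum_sigma (univ.filter (fun Y : Matrix (Fin n) (Fin n) F => Good Y))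
    (fun Y => univ.filter (fun v : Fin n → F => v ᵥ* Y = 0 ∧ Q (mk v Y)))
    (fun p => φ (mk p.2 p.1))]
  symm
  refine sum_bij (fun p _ => mk p.2 p.1) ?_ ?_ ?_ ?_
  · rintro ⟨Y, v⟩ hp
    simp only [mem_sigma, mem_filter, mem_univ, true_and] at hp ⊢
    exact ⟨(good_mk v Y).2 ⟨hp.1, hp.2.1⟩, hp.2.2⟩
  · rintro ⟨Y, v⟩ _ ⟨Y', v'⟩ _ h
    have hY : Y = Y' := by
      ext i j
      have := congrFun (congrFun h i.succ) j.succ
      simpa using this
    have hv : v = v' := by
      ext j
      have := congrFun (congrFun h 0) j.succ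
      simpa using this
    subst hY hv; rfl
  · intro X hX
    simp only [mem_filter, mem_univ, true_and] at hX
    have hXe : X = mk (fun j => X 0 j.succ) (X.submatrix Fin.succ Fin.succ) := by
      ext i j
      refine Fin.cases ?_ (fun i => ?_) i <;> refine Fin.cases ?_ (fun j => ?_) j
      · rw [mk_zz]; exact hX.1.1 0 0 le_rfl
      · rw [mk_zs]
      · rw [mk_sz]; exact hX.1.1 i.succ 0 (Fin.zero_le _)
      · rw [mk_ss, Matrix.submatrix_apply]
    refine ⟨⟨X.submatrix Fin.succ Fin.succ, fun j => X 0 j.succ⟩, ?_, hXe.symm⟩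
    rw [mem_sigma, mem_filter, mem_filter]
    have h1 := hX
    rw [hXe] at h1
    have := (good_mk _ _).1 h1.1
    exact ⟨⟨mem_univ _, this.1⟩, mem_univ _, this.2, h1.2⟩
  · rintro ⟨Y, v⟩ _
    rfl

/-- iterated extension with a terminal function -/
def extf : ℕ → ℕ → (ℕ → R) → ℕ → R
  | 0, _, f, r => f r
  | s + 1, m, f, r => step u m (extf s (m + 1) f) r

lemma extf_outer (s m : ℕ) (f : ℕ → R) : extf u (s + 1) m f = extf u s m (step u (m + s) f) := by
  induction s generalizing m with
  | zero => rfl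
  | succ s ih =>
    funext r
    rw [extf, ih (m + 1), extf]
    rw [show m + 1 + s = m + (s + 1) by ring]

open Classical in
lemma sum_rz (hu : (u : R) = (Fintype.card F : R)) (l k : ℕ) (f : ℕ → R) :
    ∑ X ∈ univ.filter (fun X : Matrix (Fin (l + 1 + k)) (Fin (l + 1 + k)) F => Good X ∧ Rz k X),
      f (dm X) = ∑ ρ ∈ range (l + 1), rk u l ρ * extf u k (l + 1) f ρ := by
  induction k generalizing f with
  | zero =>
    have h := decomp (n := l) (fun X => f (dm X))
      (fun X : Matrix (Fin (l + 1)) (Fin (l + 1)) F => Rz 0 X)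
    refine Eq.trans h ?_
    have h2 := sum_good (F := F) u hu l f
    refine Eq.trans ?_ h2
    refine sum_congr rfl fun Y _ => ?_
    have e : univ.filter (fun v : Fin l → F => v ᵥ* Y = 0 ∧ Rz 0 (mk v Y)) = {0} := by
      ext v
      simp only [mem_filter, mem_univ, true_and, mem_singleton, rz_zero]
      constructor
      · exact fun h => h.2
      · rintro rfl
        exact ⟨Matrix.zero_vecMul Y, rfl⟩
    rw [e, sum_singleton, (dm_mk 0 Y).1 (Submodule.zero_mem _)]
  | succ k ih =>
    have h := decomp (n := l + 1 + k) (fun X => f (dm X))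
      (fun X : Matrix (Fin (l + 1 + k + 1)) (Fin (l + 1 + k + 1)) F => Rz (k + 1) X)
    refine Eq.trans h ?_
    rw [extf_outer]
    rw [← ih (step u (l + 1 + k) f)]
    conv_rhs => rw [← filter_filter, sum_filter]
    refine sum_congr rfl fun Y hY => ?_
    have hg : Good Y := (mem_filter.1 hY).2
    split_ifs with hr
    · rw [← fiber u hu f Y hg]
      refine sum_congr ?_ fun _ _ => rfl
      ext v
      simp only [mem_filter, mem_univ, true_and, rz_succ, and_iff_left_iff_imp]
      exact fun _ => hr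
    · refine sum_eq_zero fun v hv => ?_
      exact absurd ((rz_succ k v Y).1 (mem_filter.1 hv).2.2) hr

/-- the lower right corner of size `m` -/
def lr (s : ℕ) {m : ℕ} (X : Matrix (Fin (m + s)) (Fin (m + s)) F) : Matrix (Fin m) (Fin m) F :=
  fun i j => X ⟨i + s, by omega⟩ ⟨j + s, by omega⟩

omit [Fintype F] [DecidableEq F] in
lemma lr_mk (s : ℕ) {m : ℕ} (v : Fin (m + s) → F) (Y : Matrix (Fin (m + s)) (Fin (m + s)) F) :
    lr (s + 1) (m := m) (mk v Y) = lr s Y := by
  funext i j
  exact mk_ss v Y ⟨i + s, by omega⟩ ⟨j + s, by omega⟩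

open Classical in
lemma sum_lr (hu : (u : R) = (Fintype.card F : R)) (m s : ℕ) (f : ℕ → R)
    (w : Matrix (Fin m) (Fin m) F → R) :
    ∑ X ∈ univ.filter (fun X : Matrix (Fin (m + s)) (Fin (m + s)) F => Good X),
      w (lr s X) * f (dm X) =
      ∑ Y ∈ univ.filter (fun Y : Matrix (Fin m) (Fin m) F => Good Y),
        w Y * extf u s m f (dm Y) := by
  induction s generalizing f with
  | zero => rfl
  | succ s ih =>
    have h := decomp (n := m + s) (fun X => w (lr (s + 1) X) * f (dm X))
      (fun _ : Matrix (Fin (m + s + 1)) (Fin (m + s + 1)) F => True)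
    simp only [and_true] at h
    refine Eq.trans h ?_
    rw [extf_outer, ← ih (step u (m + s) f)]
    refine sum_congr rfl fun Y hY => ?_
    have hg : Good Y := (mem_filter.1 hY).2
    rw [← fiber u hu f Y hg, mul_sum]
    refine sum_congr rfl fun v _ => ?_
    rw [lr_mk]

end Pool.Agent.Y301.QT
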